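import Pool.Agent.H4.SE.Targets

set_option autoImplicit false

open Finset

namespace Pool.Agent.H4.SE4.FA

open Pool.Agent.H4.SE

theorem sum_inv_sqrt (m : ℕ) : ∑ i ∈ range m, 1 / Real.sqrt ((i : ℝ) + 1) ≤ 2 * Real.sqrt m := by
  induction m with
  | zero => simp
  | succ m ih =>
    rw [sum_range_succ]
    have h0 : 0 < Real.sqrt ((m : ℝ) + 1) := Real.sqrt_pos.2 (by positivity)
    have h1 : Real.sqrt (m : ℝ) ^ 2 = m := Real.sq_sqrt (Nat.cast_nonneg m)
    have h2 : Real.sqrt ((m : ℝ) + 1) ^ 2 = m + 1 := Real.sq_sqrt (by positivity)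
    have h3 : 1 / Real.sqrt ((m : ℝ) + 1) ≤ 2 * Real.sqrt ((m : ℝ) + 1) - 2 * Real.sqrt m := by
      rw [div_le_iff₀ h0]
      nlinarith [sq_nonneg (Real.sqrt ((m : ℝ) + 1) - Real.sqrt m)]
    push_cast
    linarith

theorem pf_FA : T_FA := by
  intro r κ C a s H hC h1 h2 η hη
  set err : ℕ → ℕ → ℝ := fun k N =>
    ((k : ℝ) + 1) ^ 2 * Real.log (N + 2) / N + Real.sqrt (((k : ℝ) + 1) / N) with herr
  have step1 : ∀ k m : ℕ, ∑ i ∈ range m, s (k + r) (i + 1) + κ * Real.log ((m + 1).factorial) ≤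
      a k (m + 1) + ∑ i ∈ range m, s k (i + 2) + C * ∑ i ∈ range m, err k (i + 1) := by
    intro k m
    induction m with
    | zero =>
      have := (h2 k 1 le_rfl).2.2.2.1
      simpa using this
    | succ m ih =>
      have h := h1 k (m + 1) (by omega)
      have hf : Real.log ((m + 1 + 1).factorial) =
          Real.log ((m : ℝ) + 1 + 1) + Real.log ((m + 1).factorial) := by
        rw [Nat.factorial_succ, Nat.cast_mul, Real.log_mul (by positivity) (by positivity)]
        push_cast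
        ring_nf
      rw [sum_range_succ, sum_range_succ, sum_range_succ, hf]
      have he : err k (m + 1) = ((k : ℝ) + 1) ^ 2 * Real.log (((m + 1 : ℕ) : ℝ) + 2) /
          ((m + 1 : ℕ) : ℝ) + Real.sqrt (((k : ℝ) + 1) / ((m + 1 : ℕ) : ℝ)) := rfl
      rw [← he] at h
      push_cast at h
      rw [mul_add, mul_add]
      linarith
  have step2 : ∀ N : ℕ, 1 ≤ N → ∀ K r' : ℕ, ∑ k ∈ range K, s k N ≤
      ∑ k ∈ range K, s (k + r') N + r' * (C * Real.log N) := by
    intro N hN K r'
    induction r' with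
    | zero => simp
    | succ r' ih =>
      have e1 : ∑ k ∈ range K, s (k + r') N + s (K + r') N =
          ∑ k ∈ range K, s (k + (r' + 1)) N + s r' N := by
        have := sum_range_succ' (fun k => s (k + r') N) K
        rw [sum_range_succ] at this
        rw [this]
        simp only [Nat.zero_add]
        congr 1
        apply sum_congr rfl
        intro k _
        congr 1
        ring
      have e2 := (h2 (K + r') N hN).1
      have e3 := (h2 r' N hN).2.1
      push_cast
      linarith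
  have step3 : ∀ K m : ℕ, (K : ℝ) * (κ * Real.log ((m + 1).factorial)) ≤
      K * H (m + 1) + K * (C * K * Real.log ((m : ℝ) + 1)) + K * (C * Real.log ((m : ℝ) + 1)) +
      m * (r * (C * Real.log ((m : ℝ) + 1))) +
      C * (K * (((K : ℝ) ^ 2 * Real.log ((m : ℝ) + 3) + K) * (2 * Real.sqrt m))) := by
    intro K m
    have hs : ∑ k ∈ range K, (∑ i ∈ range m, s (k + r) (i + 1) +
        κ * Real.log ((m + 1).factorial)) ≤ ∑ k ∈ range K, (a k (m + 1) +
        ∑ i ∈ range m, s k (i + 2) + C * ∑ i ∈ range m, err k (i + 1)) :=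
      sum_le_sum fun k _ => step1 k m
    simp only [sum_add_distrib, sum_const, card_range, nsmul_eq_mul] at hs
    have ha : ∑ k ∈ range K, a k (m + 1) ≤
        K * H (m + 1) + K * (C * K * Real.log ((m : ℝ) + 1)) := by
      have : ∀ k ∈ range K, a k (m + 1) ≤ H (m + 1) + C * K * Real.log ((m : ℝ) + 1) := by
        intro k hk
        have h3 := (h2 k (m + 1) (by omega)).2.2.2.2
        push_cast at h3
        have h4 : (k : ℝ) ≤ K := by exact_mod_cast (mem_range.1 hk).le
        have h5 : 0 ≤ Real.log ((m : ℝ) + 1) := Real.log_nonneg (by linarith [(Nat.cast_nonneg m : (0:ℝ) ≤ m)])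
        have h6 : C * k * Real.log ((m : ℝ) + 1) ≤ C * K * Real.log ((m : ℝ) + 1) :=
          mul_le_mul_of_nonneg_right (mul_le_mul_of_nonneg_left h4 hC) h5
        linarith
      refine (sum_le_sum this).trans ?_
      rw [sum_const, card_range, nsmul_eq_mul, mul_add]
    have hb : ∑ k ∈ range K, ∑ i ∈ range m, s k (i + 2) ≤
        ∑ k ∈ range K, ∑ i ∈ range m, s (k + r) (i + 1) +
          K * (C * Real.log ((m : ℝ) + 1)) + m * (r * (C * Real.log ((m : ℝ) + 1))) := by
      have g1 : ∀ k ∈ range K, ∑ i ∈ range m, s k (i + 2) ≤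
          ∑ i ∈ range m, s k (i + 1) + C * Real.log ((m : ℝ) + 1) := by
        intro k _
        have := sum_range_succ' (fun i => s k (i + 1)) m
        rw [sum_range_succ] at this
        simp only [Nat.zero_add] at this
        have g2 := (h2 k (m + 1) (by omega)).2.1
        have g3 := (h2 k 1 le_rfl).1
        push_cast at g2
        have g4 : ∑ i ∈ range m, s k (i + 2) = ∑ i ∈ range m, s k (i + 1 + 1) := rfl
        rw [g4]
        linarith
      refine (sum_le_sum g1).trans ?_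
      rw [sum_add_distrib, sum_const, card_range, nsmul_eq_mul, sum_comm,
        sum_comm (s := range K) (t := range m) (f := fun k i => s (k + r) (i + 1))]
      have g5 : ∀ i ∈ range m, ∑ k ∈ range K, s k (i + 1) ≤
          ∑ k ∈ range K, s (k + r) (i + 1) + r * (C * Real.log ((m : ℝ) + 1)) := by
        intro i hi
        refine (step2 (i + 1) (by omega) K r).trans ?_
        have g6 : Real.log ((i + 1 : ℕ) : ℝ) ≤ Real.log ((m : ℝ) + 1) := by
          apply Real.log_le_log (by positivity)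
          have : (i : ℝ) ≤ m := by exact_mod_cast (mem_range.1 hi).le
          push_cast
          linarith
        have g7 : (r : ℝ) * (C * Real.log ((i + 1 : ℕ) : ℝ)) ≤
            r * (C * Real.log ((m : ℝ) + 1)) :=
          mul_le_mul_of_nonneg_left (mul_le_mul_of_nonneg_left g6 hC) (Nat.cast_nonneg r)
        linarith
      have g8 := sum_le_sum g5
      rw [sum_add_distrib, sum_const, card_range, nsmul_eq_mul] at g8
      linarith
    have hc : ∑ k ∈ range K, C * ∑ i ∈ range m, err k (i + 1) ≤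
        C * (K * (((K : ℝ) ^ 2 * Real.log ((m : ℝ) + 3) + K) * (2 * Real.sqrt m))) := by
      rw [← mul_sum]
      apply mul_le_mul_of_nonneg_left _ hC
      have g1 : ∀ k ∈ range K, ∑ i ∈ range m, err k (i + 1) ≤
          ((K : ℝ) ^ 2 * Real.log ((m : ℝ) + 3) + K) * (2 * Real.sqrt m) := by
        intro k hk
        have hkK : (k : ℝ) + 1 ≤ K := by exact_mod_cast (mem_range.1 hk)
        have hk0 : (0 : ℝ) ≤ k := Nat.cast_nonneg k
        have hl : 0 ≤ Real.log ((m : ℝ) + 3) :=
          Real.log_nonneg (by linarith [(Nat.cast_nonneg m : (0:ℝ) ≤ m)])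
        have g2 : ∀ i ∈ range m, err k (i + 1) ≤
            ((K : ℝ) ^ 2 * Real.log ((m : ℝ) + 3) + K) * (1 / Real.sqrt ((i : ℝ) + 1)) := by
          intro i hi
          have hi0 : (0 : ℝ) ≤ i := Nat.cast_nonneg i
          have him : (i : ℝ) ≤ m := by exact_mod_cast (mem_range.1 hi).le
          have q0 : (1 : ℝ) ≤ Real.sqrt ((i : ℝ) + 1) := by
            rw [Real.one_le_sqrt]; linarith
          have q1 : Real.sqrt ((i : ℝ) + 1) ≤ (i : ℝ) + 1 := by
            have := Real.sq_sqrt (show (0 : ℝ) ≤ (i : ℝ) + 1 by linarith)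
            nlinarith
          simp only [herr]
          push_cast
          rw [Real.sqrt_div (by linarith : (0 : ℝ) ≤ (k : ℝ) + 1), add_mul]
          have q2 : Real.log ((i : ℝ) + 1 + 2) ≤ Real.log ((m : ℝ) + 3) :=
            Real.log_le_log (by linarith) (by linarith)
          have q3 : 0 ≤ Real.log ((i : ℝ) + 1 + 2) := Real.log_nonneg (by linarith)
          have q4 : ((k : ℝ) + 1) ^ 2 * Real.log ((i : ℝ) + 1 + 2) ≤
              (K : ℝ) ^ 2 * Real.log ((m : ℝ) + 3) :=
            mul_le_mul (pow_le_pow_left₀ (by linarith) hkK 2) q2 q3 (by positivity)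
          have q5 : ((k : ℝ) + 1) ^ 2 * Real.log ((i : ℝ) + 1 + 2) / ((i : ℝ) + 1) ≤
              (K : ℝ) ^ 2 * Real.log ((m : ℝ) + 3) * (1 / Real.sqrt ((i : ℝ) + 1)) := by
            rw [mul_one_div]
            exact div_le_div₀ (by positivity) q4 (by linarith) q1
          have q6 : Real.sqrt ((k : ℝ) + 1) ≤ K := by
            have q7 := Real.sq_sqrt (show (0 : ℝ) ≤ (k : ℝ) + 1 by linarith)
            have q8 : (1 : ℝ) ≤ Real.sqrt ((k : ℝ) + 1) := by
              rw [Real.one_le_sqrt]; linarith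
            nlinarith
          have q9 : Real.sqrt ((k : ℝ) + 1) / Real.sqrt ((i : ℝ) + 1) ≤
              (K : ℝ) * (1 / Real.sqrt ((i : ℝ) + 1)) := by
            rw [mul_one_div]
            exact div_le_div_of_nonneg_right q6 (by linarith)
          linarith
        refine (sum_le_sum g2).trans ?_
        rw [← mul_sum]
        exact mul_le_mul_of_nonneg_left (sum_inv_sqrt m) (by positivity)
      refine (sum_le_sum g1).trans ?_
      rw [sum_const, card_range, nsmul_eq_mul]
    linarith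
  -- conclusion
  obtain ⟨U, hU⟩ : ∃ U : ℝ, U * η = C * (16 * r + 600) + 1 := ⟨(C * (16 * r + 600) + 1) / η, by
    field_simp⟩
  have hev : ∀ᶠ M : ℕ in Filter.atTop, max U 1 ≤ ((M : ℝ)) ^ ((1 : ℝ) / 16) :=
    ((tendsto_rpow_atTop (by norm_num : (0 : ℝ) < 1 / 16)).comp
      tendsto_natCast_atTop_atTop).eventually_ge_atTop _
  filter_upwards [hev, Filter.eventually_ge_atTop 1] with M hM hM1
  obtain ⟨m, rfl⟩ : ∃ m, M = m + 1 := ⟨M - 1, by omega⟩
  set u : ℝ := ((m + 1 : ℕ) : ℝ) ^ ((1 : ℝ) / 16) with hu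
  have hu1 : 1 ≤ u := (le_max_right _ _).trans hM
  have huU : U ≤ u := (le_max_left _ _).trans hM
  have hu0 : 0 < u := by linarith
  have hu16 : u ^ 16 = (m : ℝ) + 1 := by
    rw [hu, ← Real.rpow_natCast, ← Real.rpow_mul (by positivity)]
    norm_num
  have hm0 : (0 : ℝ) ≤ m := Nat.cast_nonneg m
  have hlog1 : Real.log ((m : ℝ) + 1) ≤ 16 * u := by
    rw [← hu16, Real.log_pow]
    have := Real.log_le_sub_one_of_pos hu0
    push_cast
    linarith
  have hlog0 : 0 ≤ Real.log ((m : ℝ) + 1) := Real.log_nonneg (by linarith)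
  have hlog3 : Real.log ((m : ℝ) + 3) ≤ 18 * u := by
    have e1 : Real.log ((m : ℝ) + 3) ≤ Real.log (3 * ((m : ℝ) + 1)) :=
      Real.log_le_log (by linarith) (by linarith)
    rw [Real.log_mul (by norm_num) (by linarith)] at e1
    have e2 : Real.log 3 ≤ 2 := by
      have := Real.log_le_sub_one_of_pos (show (0 : ℝ) < 3 by norm_num)
      linarith
    linarith
  have hlog30 : 0 ≤ Real.log ((m : ℝ) + 3) := Real.log_nonneg (by linarith)
  have hsq : Real.sqrt m ≤ u ^ 8 := by
    rw [Real.sqrt_le_left (by positivity)]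
    calc (m : ℝ) ≤ (m : ℝ) + 1 := by linarith
      _ = (u ^ 8) ^ 2 := by rw [← hu16]; ring
  set K : ℕ := ⌈u ^ 2⌉₊ with hK
  have hK1 : u ^ 2 ≤ K := Nat.le_ceil _
  have hK2 : (K : ℝ) ≤ 2 * u ^ 2 := by
    have := Nat.ceil_lt_add_one (show 0 ≤ u ^ 2 by positivity)
    have h3 : 1 ≤ u ^ 2 := one_le_pow₀ hu1
    linarith
  have hK0 : (0 : ℝ) < K := lt_of_lt_of_le (by positivity) hK1
  have key := step3 K m
  have f1 : C * K * Real.log ((m : ℝ) + 1) ≤ C * (32 * u ^ 3) := by
    rw [mul_assoc]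
    apply mul_le_mul_of_nonneg_left _ hC
    calc (K : ℝ) * Real.log ((m : ℝ) + 1) ≤ (2 * u ^ 2) * (16 * u) :=
          mul_le_mul hK2 hlog1 hlog0 (by positivity)
      _ = 32 * u ^ 3 := by ring
  have f2 : C * Real.log ((m : ℝ) + 1) ≤ C * (16 * u) := mul_le_mul_of_nonneg_left hlog1 hC
  have f3 : (m : ℝ) * (r * (C * Real.log ((m : ℝ) + 1))) ≤ K * (C * (16 * r * u ^ 15)) := by
    calc (m : ℝ) * (r * (C * Real.log ((m : ℝ) + 1))) ≤ u ^ 16 * (r * (C * (16 * u))) := by
          apply mul_le_mul (by linarith) _ (by positivity) (by positivity)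
          exact mul_le_mul_of_nonneg_left f2 (Nat.cast_nonneg r)
      _ = u ^ 2 * (C * (16 * r * u ^ 15)) := by ring
      _ ≤ K * (C * (16 * r * u ^ 15)) := mul_le_mul_of_nonneg_right hK1 (by positivity)
  have f4 : ((K : ℝ) ^ 2 * Real.log ((m : ℝ) + 3) + K) * (2 * Real.sqrt m) ≤ 148 * u ^ 13 := by
    have g1 : (K : ℝ) ^ 2 * Real.log ((m : ℝ) + 3) ≤ 72 * u ^ 5 := by
      calc (K : ℝ) ^ 2 * Real.log ((m : ℝ) + 3) ≤ (2 * u ^ 2) ^ 2 * (18 * u) :=
            mul_le_mul (pow_le_pow_left₀ hK0.le hK2 2) hlog3 hlog30 (by positivity)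
        _ = 72 * u ^ 5 := by ring
    have g2 : (K : ℝ) ≤ 2 * u ^ 5 := by
      have : u ^ 2 ≤ u ^ 5 := pow_le_pow_right₀ hu1 (by norm_num)
      linarith
    calc ((K : ℝ) ^ 2 * Real.log ((m : ℝ) + 3) + K) * (2 * Real.sqrt m) ≤
          (74 * u ^ 5) * (2 * u ^ 8) := by
          apply mul_le_mul (by linarith) (by linarith) (by positivity) (by positivity)
      _ = 148 * u ^ 13 := by ring
  have f5 : C * (K * (((K : ℝ) ^ 2 * Real.log ((m : ℝ) + 3) + K) * (2 * Real.sqrt m))) ≤
      K * (C * (148 * u ^ 13)) := by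
    calc C * (K * (((K : ℝ) ^ 2 * Real.log ((m : ℝ) + 3) + K) * (2 * Real.sqrt m))) =
        K * (C * (((K : ℝ) ^ 2 * Real.log ((m : ℝ) + 3) + K) * (2 * Real.sqrt m))) := by ring
      _ ≤ K * (C * (148 * u ^ 13)) :=
        mul_le_mul_of_nonneg_left (mul_le_mul_of_nonneg_left f4 hC) hK0.le
  have f6 : (K : ℝ) * (κ * Real.log ((m + 1).factorial)) ≤
      K * (H (m + 1) + C * (32 * u ^ 3) + C * (16 * u) + C * (16 * r * u ^ 15) +
        C * (148 * u ^ 13)) := by
    have g1 : K * (C * K * Real.log ((m : ℝ) + 1)) ≤ K * (C * (32 * u ^ 3)) :=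
      mul_le_mul_of_nonneg_left f1 hK0.le
    have g2 : K * (C * Real.log ((m : ℝ) + 1)) ≤ K * (C * (16 * u)) :=
      mul_le_mul_of_nonneg_left f2 hK0.le
    calc (K : ℝ) * (κ * Real.log ((m + 1).factorial)) ≤ K * H (m + 1) + K * (C * (32 * u ^ 3)) +
          K * (C * (16 * u)) + K * (C * (16 * r * u ^ 15)) + K * (C * (148 * u ^ 13)) := by
          linarith
      _ = _ := by ring
  have f7 := le_of_mul_le_mul_left f6 hK0
  have f8 : C * (32 * u ^ 3) + C * (16 * u) + C * (16 * r * u ^ 15) + C * (148 * u ^ 13) ≤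
      η * u ^ 16 := by
    have p1 : u ^ 3 ≤ u ^ 15 := pow_le_pow_right₀ hu1 (by norm_num)
    have p2 : u ≤ u ^ 15 := le_self_pow₀ hu1 (by norm_num)
    have p3 : u ^ 13 ≤ u ^ 15 := pow_le_pow_right₀ hu1 (by norm_num)
    have p4 : 32 * u ^ 3 + 16 * u + 16 * r * u ^ 15 + 148 * u ^ 13 ≤
        (16 * r + 600) * u ^ 15 := by nlinarith
    calc C * (32 * u ^ 3) + C * (16 * u) + C * (16 * r * u ^ 15) + C * (148 * u ^ 13) =
          C * (32 * u ^ 3 + 16 * u + 16 * r * u ^ 15 + 148 * u ^ 13) := by ring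
      _ ≤ C * ((16 * r + 600) * u ^ 15) := mul_le_mul_of_nonneg_left p4 hC
      _ = (C * (16 * r + 600)) * u ^ 15 := by ring
      _ ≤ (U * η) * u ^ 15 := mul_le_mul_of_nonneg_right (by linarith) (by positivity)
      _ = η * (U * u ^ 15) := by ring
      _ ≤ η * (u * u ^ 15) := mul_le_mul_of_nonneg_left
          (mul_le_mul_of_nonneg_right huU (by positivity)) hη.le
      _ = η * u ^ 16 := by ring
  rw [hu16] at f8
  push_cast
  linarith

end Pool.Agent.H4.SE4.FA
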