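import Pool.Agent.H4.SE.Targets

set_option autoImplicit false

open Finset Equiv
open scoped Classical

namespace Pool.Agent.H4.SE4.WL

open Pool.Agent.H4.SE
open Pool.Agent.H11.SAE (lp act verts)

theorem act_eq (r n : ℕ) (σ : Fin r → Perm (Fin n)) (L : List (Fin r × Bool)) (v : Fin n) :
    act σ L v = FreeGroup.lift σ (FreeGroup.mk L) v := by
  induction L generalizing v with
  | nil => simp [Pool.Agent.H11.SAE.act_nil, ← FreeGroup.one_eq_mk]
  | cons x L ih =>
    rw [Pool.Agent.H11.SAE.act_cons, ih]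
    rcases x with ⟨i, b⟩
    cases b <;> simp [Pool.Agent.H11.SAE.lp, FreeGroup.lift_mk]

theorem pf_WL (hWA : T_WA) : T_WL := by
  intro r n σ w
  ext v
  rw [hWA, List.take_of_length_le le_rfl, List.reverse_reverse, act_eq, FreeGroup.mk_toWord]

end Pool.Agent.H4.SE4.WL
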